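import Pool.Agent.Helper7.ST.Limits
import Pool.Agent.Helper4.ST.Scale

set_option autoImplicit false

/-!
# Limit points of Sato-Tate averages over `K` and over the fields `K L`, `L` abelian over the rationals

For a strictly compatible symplectic family over a number field `K`, a bounded function `f` on its
Sato-Tate group and primes `q` with subgroups `H_q` of `(ℤ/q)ˣ` of index `m_q`: whenever the
averages of `f (x v)` over all primes `v` tend to `a` along a sequence, then along a subsequence the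
averages over the `v` with `q_v mod q` in `H_q` (those which split completely in `K L_q`, `L_q` the
subfield of degree `m_q` of the field of `q`-th roots of unity fixed by `H_q`) tend to `c_q` for all
`q`, and `∑ |c_q - a|² / m_q ≤ (B [K : ℚ])²`. If `∑ 1 / m_q = ∞`, convergence for all `q` implies
convergence over `K`.
-/

namespace Pool.Agent.Results.MP_4c4ce6_nt.AbelianDescent

open NumberField IsDedekindDomain Matrix MeasureTheory Pool.Agent.Helper4.ST Filter Topology
open scoped MatrixGroups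

universe u w

open Classical in
/-- The average of `F v` over the primes `v` with `q_v ≤ X` and `good v`, normalised by `π(X)`. -/
noncomputable def average {K : Type u} [Field K] [NumberField K]
    (good : HeightOneSpectrum (𝓞 K) → Prop) (F : HeightOneSpectrum (𝓞 K) → ℂ) (X : ℕ) : ℂ :=
  (∑ v ∈ (primesLE K X).filter good, F v) / (Nat.primeCounting X : ℂ)

open Classical in
/-- The index `m` of `H` times the average of `F v` over the primes `v` with `q_v ≤ X`, `good v` and
`q_v mod q` in `H`, normalised by `π(X)`. -/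
noncomputable def averageIn {K : Type u} [Field K] [NumberField K]
    (good : HeightOneSpectrum (𝓞 K) → Prop) (F : HeightOneSpectrum (𝓞 K) → ℂ) (q : ℕ)
    (H : Subgroup (ZMod q)ˣ) (X : ℕ) : ℂ :=
  (H.index : ℂ) * average (fun v => good v ∧ ∃ h ∈ H, (qv v : ZMod q) = (h : ZMod q)) F X

/-- Let `D` be a strictly compatible symplectic family of odd weight `n` over a number field `K` of
degree `d`, with Sato-Tate group `U` and classes `x v`, and let `f` be a function on `U` with
`‖f‖ ≤ B`. Let `Q` be a set of primes `q` with subgroups `H q` of `(ℤ/q)ˣ`, of index `m_q`.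
(0) The Frobenius at `v` maps a `q`-th root of unity `ζ` to `ζ ^ q_v`, so that the condition
`q_v mod q ∈ H q` says that the Frobenius at `v` is trivial on the field fixed by `H q`.
(1) **Limit points.** If the averages of `f (x v)` over all `v` with `q_v ≤ X` tend to `a` along a
sequence `X = φ i → ∞`, then a subsequence exists along which for all `q ∈ Q` the averages over the
`v` with `q_v mod q` in `H q` tend to a limit `c q`, and `∑_{q ∈ Q} |c q - a|² / m_q ≤ (B d)²`.
(2) **Descent.** Suppose that `∑_{q ∈ Q} 1 / m_q` diverges. If for each `q ∈ Q` the averages over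
the `v` with `q_v mod q` in `H q` tend to `c q` as `X → ∞`, then the averages over all `v` tend to a
limit `a`, and `a = b` if all `c q` are equal to `b`. -/
theorem result (K : Type u) [Field K] [NumberField K] (Ω : Type w) [Field Ω] [CharZero Ω]
    [Algebra K Ω] [IsAlgClosed Ω] [Algebra.IsAlgebraic K Ω] (r n : ℕ) (D : Family K Ω r n)
    (ℓ : ℕ) [Fact ℓ.Prime] (τ : ℚ_[ℓ] →+* ℂ) (U : Subgroup (GL (Fin r) ℂ))
    (x : HeightOneSpectrum (𝓞 K) → U) (f : U → ℂ) (B : ℝ) (Q : Set ℕ)
    (H : ∀ q : ℕ, Subgroup (ZMod q)ˣ)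
    (_hn : Odd n) (_hU : D.IsSatoTateGroup ℓ τ U)
    (_hx : ∀ v, v ∉ D.bad → (ℓ : 𝓞 K) ∉ v.asIdeal → D.IsSatoTateClass ℓ τ U v (x v))
    (hB : 0 < B) (hf : ∀ u, ‖f u‖ ≤ B) (hQ : ∀ q ∈ Q, q.Prime) :
    (∀ (q : ℕ) (v : HeightOneSpectrum (𝓞 K)) (σ : Ω ≃ₐ[K] Ω) (ζ : Ω), q.Prime →
      (q : 𝓞 K) ∉ v.asIdeal → IsFrob v σ → ζ ^ q = 1 → σ ζ = ζ ^ qv v) ∧
    (∀ (φ : ℕ → ℕ) (a : ℂ), Tendsto φ atTop atTop →
      Tendsto (fun i => average (fun v => v ∉ D.bad ∧ (ℓ : 𝓞 K) ∉ v.asIdeal)
        (fun v => f (x v)) (φ i)) atTop (𝓝 a) →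
      ∃ ψ : ℕ → ℕ, StrictMono ψ ∧ ∃ c : ℕ → ℂ,
        (∀ q ∈ Q, Tendsto (fun i => averageIn (fun v => v ∉ D.bad ∧ (ℓ : 𝓞 K) ∉ v.asIdeal)
          (fun v => f (x v)) q (H q) (φ (ψ i))) atTop (𝓝 (c q))) ∧
        ∀ S : Finset ℕ, (∀ q ∈ S, q ∈ Q) →
          ∑ q ∈ S, ‖c q - a‖ ^ 2 / ((H q).index : ℝ) ≤ (B * Module.finrank ℚ K) ^ 2) ∧
    ((¬ Summable fun q : Q => 1 / ((H q).index : ℝ)) → ∀ c : ℕ → ℂ,
      (∀ q ∈ Q, Tendsto (averageIn (fun v => v ∉ D.bad ∧ (ℓ : 𝓞 K) ∉ v.asIdeal)
        (fun v => f (x v)) q (H q)) atTop (𝓝 (c q))) →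
      ∃ a : ℂ, Tendsto (average (fun v => v ∉ D.bad ∧ (ℓ : 𝓞 K) ∉ v.asIdeal)
        (fun v => f (x v))) atTop (𝓝 a) ∧ ∀ b : ℂ, (∀ q ∈ Q, c q = b) → a = b) := by
  classical
  set good : HeightOneSpectrum (𝓞 K) → Prop := fun v => v ∉ D.bad ∧ (ℓ : 𝓞 K) ∉ v.asIdeal
    with hgood
  have hBC : (B : ℂ) ≠ 0 := by exact_mod_cast hB.ne'
  have h1 : ∀ X, Pool.Agent.Helper7.ST.avK good (fun v => f (x v) / B) X =
      average good (fun v => f (x v)) X / B := by
    intro X
    unfold Pool.Agent.Helper7.ST.avK average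
    rw [← Finset.sum_div, div_right_comm]
  have h2 : ∀ (q : ℕ) (X : ℕ), Pool.Agent.Helper7.ST.avH good (fun v => f (x v) / B) q (H q) X =
      averageIn good (fun v => f (x v)) q (H q) X / B := by
    intro q X
    unfold Pool.Agent.Helper7.ST.avH averageIn average
    rw [← Finset.sum_div, mul_div_assoc, mul_div_assoc, div_right_comm]
    congr!
  have hF1 : ∀ v : HeightOneSpectrum (𝓞 K), ‖f (x v) / B‖ ≤ 1 := fun v => by
    rw [norm_div, Complex.norm_real, Real.norm_of_nonneg hB.le, div_le_one hB]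
    exact hf _
  have hlim : ∀ (φ : ℕ → ℕ) (a : ℂ), Tendsto φ atTop atTop →
      Tendsto (fun i => average good (fun v => f (x v)) (φ i)) atTop (𝓝 a) →
      ∃ ψ : ℕ → ℕ, StrictMono ψ ∧ ∃ c : ℕ → ℂ,
        (∀ q ∈ Q, Tendsto (fun i => averageIn good (fun v => f (x v)) q (H q) (φ (ψ i)))
          atTop (𝓝 (c q))) ∧
        ∀ S : Finset ℕ, (∀ q ∈ S, q ∈ Q) →
          ∑ q ∈ S, ‖c q - a‖ ^ 2 / ((H q).index : ℝ) ≤ (B * Module.finrank ℚ K) ^ 2 := by
    intro φ a hφ ha
    have ha' : Tendsto (fun i => Pool.Agent.Helper7.ST.avK good (fun v => f (x v) / B) (φ i))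
        atTop (𝓝 (a / B)) := by
      refine (ha.div_const (B : ℂ)).congr fun i => ?_
      exact (h1 _).symm
    obtain ⟨ψ, hψ, c, hc, hs⟩ := Pool.Agent.Helper7.ST.limits_one good (fun v => f (x v) / B)
      hF1 Q H hQ φ hφ (a / B) ha'
    refine ⟨ψ, hψ, fun q => B * c q, fun q hq => ?_, fun S hS => ?_⟩
    · refine ((hc q hq).const_mul (B : ℂ)).congr fun i => ?_
      rw [h2]
      field_simp
    · have h3 := hs S (fun q hq => hS q hq)
      have h4 : ∑ q ∈ S, ‖B * c q - a‖ ^ 2 / ((H q).index : ℝ) =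
          B ^ 2 * ∑ q ∈ S, ‖c q - a / B‖ ^ 2 / ((H q).index : ℝ) := by
        rw [Finset.mul_sum]
        refine Finset.sum_congr rfl fun q _ => ?_
        have h5 : B * c q - a = B * (c q - a / B) := by
          field_simp
        rw [h5, norm_mul, Complex.norm_real, Real.norm_of_nonneg hB.le, mul_pow, mul_div_assoc]
      rw [h4, mul_pow]
      exact mul_le_mul_of_nonneg_left h3 (by positivity)
  refine ⟨fun q v σ ζ hq hv hσ hζ => hσ.root hq.ne_zero hv hζ, hlim, fun hdiv c hc => ?_⟩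
  obtain ⟨a, ha, _⟩ := Pool.Agent.Helper7.ST.descent_one good (fun v => f (x v) / B)
    hF1 Q H (fun q => c q / B) hQ hdiv (fun q hq => by
      refine ((hc q hq).div_const (B : ℂ)).congr fun X => ?_
      exact (h2 q X).symm)
  have haB : Tendsto (average good (fun v => f (x v))) atTop (𝓝 (B * a)) := by
    refine (ha.const_mul (B : ℂ)).congr fun X => ?_
    rw [h1]
    field_simp
  refine ⟨B * a, haB, ?_⟩
  intro b hb
  by_contra hne
  apply hdiv
  have hpos : 0 < ‖b - B * a‖ ^ 2 := by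
    have : 0 < ‖b - B * a‖ := norm_pos_iff.2 (sub_ne_zero.2 (Ne.symm hne))
    positivity
  obtain ⟨ψ, hψ, c', hc', hs⟩ := hlim id (B * a) tendsto_id haB
  refine summable_of_sum_le (c := (B * Module.finrank ℚ K) ^ 2 / ‖b - B * a‖ ^ 2)
    (fun q => by positivity) ?_
  intro u
  rw [le_div_iff₀ hpos]
  have h3 := hs (u.map ⟨Subtype.val, Subtype.val_injective⟩) (by
    intro q hq
    rw [Finset.mem_map] at hq
    obtain ⟨y, _, rfl⟩ := hq
    exact y.2)
  rw [Finset.sum_map] at h3
  rw [Finset.sum_mul]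
  refine le_trans (Finset.sum_le_sum fun q _ => ?_) h3
  have h4 : c' (q : ℕ) = b := by
    rw [← hb _ q.2]
    exact tendsto_nhds_unique (hc' _ q.2) ((hc _ q.2).comp (tendsto_id.comp hψ.tendsto_atTop))
  simp only [Function.Embedding.coeFn_mk]
  rw [h4]
  apply le_of_eq
  ring

end Pool.Agent.Results.MP_4c4ce6_nt.AbelianDescent
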