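import Pool.Agent.Helper4.ST.Main

set_option autoImplicit false

namespace Pool.Agent.Results.MP_4c4ce6_nt.QuadraticTwistsUniform

open NumberField IsDedekindDomain Matrix MeasureTheory Pool.Agent.Helper4.ST
open scoped MatrixGroups

universe u w

open Classical in
/-- **The odd part of the Sato-Tate law for almost all quadratic twists, uniformly in the test
function.**
Let `D` be a strictly compatible symplectic family of odd weight `n` over a number field `K` of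
degree at most `d`, with Sato-Tate group `U`, classes `x v` and Haar probability measure `μ`, and
let `f 0, f 1, ...` be functions on `U` with `‖f k‖ ≤ 1` and `f k (-u) = - f k u` (for example the
normalised odd irreducible characters).  Let `δ ≥ 0`, `0 < 2 / A < θ - δ`, `θ ≤ 1` and
`κ = (θ - δ - 2 / A) / 12`.  If `Q` is large in terms of `d, θ, δ, A`, then for all but at most
`Q ^ θ` primitive real characters `χ` of conductor `2 ≤ q ≤ Q`, the twist `D ⊗ χ` has the Sato-Tate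
group `U` and the classes `y v = χ(q_v) x v`, and
`|∑_{q_v ≤ X} (f k (y v) - ∫ f k dμ)| ≤ X min(X, Q) ^ (-κ)` for all `k + 1 ≤ Q ^ δ` and all
`(log Q) ^ A ≤ X ≤ exp (Q ^ κ)`. -/
theorem result (d : ℕ) (θ δ A : ℝ) (hδ : 0 ≤ δ) (hA : 0 < A) (hθ : 2 / A < θ - δ) (hθ1 : θ ≤ 1) :
    ∃ Q₀ : ℕ, ∀ (K : Type u) [Field K] [NumberField K] (Ω : Type w) [Field Ω] [CharZero Ω]
      [Algebra K Ω] [IsAlgClosed Ω] [Algebra.IsAlgebraic K Ω] (r n : ℕ) (D : Family K Ω r n)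
      (ℓ : ℕ) [Fact ℓ.Prime] (τ : ℚ_[ℓ] →+* ℂ) (U : Subgroup (GL (Fin r) ℂ))
      [MeasurableSpace U] [BorelSpace U] (μ : Measure U) [μ.IsHaarMeasure]
      [IsProbabilityMeasure μ] (x : HeightOneSpectrum (𝓞 K) → U) (f : ℕ → U → ℂ),
      Module.finrank ℚ K ≤ d → Odd n → D.IsSatoTateGroup ℓ τ U →
      (∀ v, v ∉ D.bad → (ℓ : 𝓞 K) ∉ v.asIdeal → D.IsSatoTateClass ℓ τ U v (x v)) →
      (∀ k u, ‖f k u‖ ≤ 1) →
      (∀ k, ∀ u u' : U, (u' : GL (Fin r) ℂ) = -(u : GL (Fin r) ℂ) → f k u' = -f k u) →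
      ∀ Q : ℕ, Q₀ ≤ Q →
      ∃ E : Finset (Σ q : ℕ, DirichletCharacter ℤ q), (E.card : ℝ) ≤ (Q : ℝ) ^ θ ∧
        ∀ (q : ℕ) [NeZero q] (χ : DirichletCharacter ℤ q), 2 ≤ q → q ≤ Q → χ.IsPrimitive →
          (⟨q, χ⟩ : Σ q : ℕ, DirichletCharacter ℤ q) ∉ E →
          (D.twist χ).IsSatoTateGroup ℓ τ U ∧
          ∃ y : HeightOneSpectrum (𝓞 K) → U,
            (∀ v, v ∉ (D.twist χ).bad → (ℓ : 𝓞 K) ∉ v.asIdeal →
              (D.twist χ).IsSatoTateClass ℓ τ U v (y v) ∧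
              ((y v : GL (Fin r) ℂ) : Matrix (Fin r) (Fin r) ℂ) =
                ((χ (qv v : ZMod q) : ℤ) : ℂ) •
                  ((x v : GL (Fin r) ℂ) : Matrix (Fin r) (Fin r) ℂ)) ∧
            ∀ k X : ℕ, (k : ℝ) + 1 ≤ (Q : ℝ) ^ δ → Real.log Q ^ A ≤ X →
              (X : ℝ) ≤ Real.exp ((Q : ℝ) ^ ((θ - δ - 2 / A) / 12)) →
              ‖∑ v ∈ (primesLE K X).filter
                  (fun v => v ∉ (D.twist χ).bad ∧ (ℓ : 𝓞 K) ∉ v.asIdeal),
                (f k (y v) - ∫ u, f k u ∂μ)‖ ≤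
                (X : ℝ) * min (X : ℝ) (Q : ℝ) ^ (-((θ - δ - 2 / A) / 12)) := by
  obtain ⟨Q₀, hQ₀⟩ := analytic_main.{u} d (θ - δ) A hA hθ (by linarith)
  refine ⟨max Q₀ 1, ?_⟩
  intro K _ _ Ω _ _ _ _ _ r n D ℓ _ τ U _ _ μ _ _ x f hd hn hU hx hf hodd Q hQ
  have hQ1 : 1 ≤ Q := (le_max_right _ _).trans hQ
  have hQ0 : (0 : ℝ) < Q := by exact_mod_cast hQ1
  have hall := fun k => hQ₀ K hd (fun v => v ∉ D.bad ∧ (ℓ : 𝓞 K) ∉ v.asIdeal)
    (fun v => f k (x v)) (fun v => hf k _) Q ((le_max_left _ _).trans hQ)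
  choose E hEcard hE using hall
  refine ⟨(Finset.range ⌊(Q : ℝ) ^ δ⌋₊).biUnion E, ?_, ?_⟩
  · calc ((((Finset.range ⌊(Q : ℝ) ^ δ⌋₊).biUnion E).card : ℕ) : ℝ)
        ≤ ((∑ k ∈ Finset.range ⌊(Q : ℝ) ^ δ⌋₊, (E k).card : ℕ) : ℝ) := by
          exact_mod_cast Finset.card_biUnion_le
      _ = ∑ k ∈ Finset.range ⌊(Q : ℝ) ^ δ⌋₊, ((E k).card : ℝ) := by push_cast; rfl
      _ ≤ ∑ _k ∈ Finset.range ⌊(Q : ℝ) ^ δ⌋₊, (Q : ℝ) ^ (θ - δ) :=
          Finset.sum_le_sum fun k _ => hEcard k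
      _ = (⌊(Q : ℝ) ^ δ⌋₊ : ℝ) * (Q : ℝ) ^ (θ - δ) := by
          rw [Finset.sum_const, Finset.card_range, nsmul_eq_mul]
      _ ≤ (Q : ℝ) ^ δ * (Q : ℝ) ^ (θ - δ) := by
          gcongr
          exact Nat.floor_le (by positivity)
      _ = (Q : ℝ) ^ θ := by
          rw [← Real.rpow_add hQ0]
          congr 1
          ring
  intro q _ χ hq2 hqQ hprim hnot
  -- a good prime with a Frobenius element
  have hℓ0 : NeZero ℓ := ⟨(Fact.out : ℓ.Prime).ne_zero⟩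
  have hfrob : D.HasFrob ℓ χ := by
    obtain ⟨v, hv⟩ := exists_prime_notMem
      ((D.twist χ).bad ∪ (Family.finite_dvd (K := K) ℓ).toFinset)
    rw [Finset.mem_union, not_or, Set.Finite.mem_toFinset] at hv
    have h1 := hx v ((D.twist_bad χ).1 hv.1).1 hv.2
    obtain ⟨_, σ, hσ, _⟩ := h1
    exact ⟨v, hv.1, hv.2, σ, hσ⟩
  obtain ⟨v₀, hv₀, hℓ₀, σ₀, hσ₀⟩ := id hfrob
  have hzcl := D.neg_one_mem_zcl ℓ τ hn ((D.twist_bad χ).1 hv₀).1 hℓ₀ hσ₀
  have hneg : (-1 : GL (Fin r) ℂ) ∈ U := D.neg_one_mem ℓ τ hzcl hU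
  refine ⟨Family.twist_group D ℓ τ χ hn hfrob hU, ?_⟩
  have hsU : ∀ v, Family.signMul χ (qv v) ((x v : U) : GL (Fin r) ℂ) ∈ U := by
    intro v
    unfold Family.signMul
    split_ifs
    · have := U.mul_mem hneg (x v).2
      rwa [neg_one_mul] at this
    · exact (x v).2
  set y : HeightOneSpectrum (𝓞 K) → U := fun v => ⟨Family.signMul χ (qv v) (x v), hsU v⟩ with hy
  have hyv : ∀ k v, (q : 𝓞 K) ∉ v.asIdeal →
      f k (y v) = ((χ (qv v : ZMod q) : ℤ) : ℂ) * f k (x v) := by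
    intro k v hv
    rcases char_unit χ (qv_coprime v hv) with h1 | h1
    · have h2 : y v = x v := by
        apply Subtype.ext
        simp only [hy, Family.signMul]
        rw [if_neg (by rw [h1]; decide)]
      rw [h2, h1]
      simp
    · have h2 : ((y v : U) : GL (Fin r) ℂ) = -((x v : U) : GL (Fin r) ℂ) := by
        simp only [hy, Family.signMul]
        rw [if_pos h1]
      rw [hodd k _ _ h2, h1]
      simp
  refine ⟨y, ?_, ?_⟩
  · intro v hv hℓv
    have hv' := (D.twist_bad χ).1 hv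
    refine ⟨D.twist_class ℓ τ χ hneg hn hfrob hv'.2 (hx v hv'.1 hℓv), ?_⟩
    rcases char_unit χ (qv_coprime v hv'.2) with h1 | h1
    · have h2 : ((y v : U) : GL (Fin r) ℂ) = ((x v : U) : GL (Fin r) ℂ) := by
        simp only [hy, Family.signMul]
        rw [if_neg (by rw [h1]; decide)]
      rw [h2, h1]
      simp
    · have h2 : ((y v : U) : GL (Fin r) ℂ) = -((x v : U) : GL (Fin r) ℂ) := by
        simp only [hy, Family.signMul]
        rw [if_pos h1]
      rw [h2, h1, Units.val_neg]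
      simp
  · intro k X hk hX1 hX2
    have hint : ∫ u, f k u ∂μ = 0 := Family.integral_odd hneg μ (f k) (hodd k)
    have hkmem : k ∈ Finset.range ⌊(Q : ℝ) ^ δ⌋₊ := by
      rw [Finset.mem_range, Nat.lt_iff_add_one_le]
      apply Nat.le_floor
      push_cast
      exact hk
    have h1 := hE k q χ hq2 hqQ hprim
      (fun h => hnot (Finset.mem_biUnion.2 ⟨k, hkmem, h⟩)) X hX1 hX2
    refine le_trans (le_of_eq ?_) h1
    congr 1
    rw [hint]
    simp only [sub_zero]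
    -- remove the primes dividing `q`
    have h2 : ∑ v ∈ (primesLE K X).filter (fun v => v ∉ D.bad ∧ (ℓ : 𝓞 K) ∉ v.asIdeal),
        ((χ (qv v : ZMod q) : ℤ) : ℂ) * f k (x v) =
        ∑ v ∈ (primesLE K X).filter (fun v => v ∉ (D.twist χ).bad ∧ (ℓ : 𝓞 K) ∉ v.asIdeal),
        ((χ (qv v : ZMod q) : ℤ) : ℂ) * f k (x v) := by
      symm
      apply Finset.sum_subset
      · intro v hv
        rw [Finset.mem_filter] at hv ⊢
        exact ⟨hv.1, ((D.twist_bad χ).1 hv.2.1).1, hv.2.2⟩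
      · intro v hv hv'
        rw [Finset.mem_filter] at hv hv'
        have h3 : (q : 𝓞 K) ∈ v.asIdeal := by
          by_contra hno
          exact hv' ⟨hv.1, (D.twist_bad χ).2 ⟨hv.2.1, hno⟩, hv.2.2⟩
        have h4 : ¬ IsUnit (qv v : ZMod q) := by
          rw [ZMod.isUnit_iff_coprime]
          intro hcop
          obtain ⟨a, b, hab⟩ := Nat.isCoprime_iff_coprime.2 hcop
          have h8 : (1 : 𝓞 K) ∈ v.asIdeal := by
            have : (1 : 𝓞 K) = (a : 𝓞 K) * (qv v : ℕ) + (b : 𝓞 K) * q := by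
              exact_mod_cast congrArg (fun z : ℤ => (z : 𝓞 K)) hab.symm
            rw [this]
            exact v.asIdeal.add_mem (v.asIdeal.mul_mem_left _ (Ideal.absNorm_mem v.asIdeal))
              (v.asIdeal.mul_mem_left _ h3)
          exact v.isPrime.ne_top ((Ideal.eq_top_iff_one _).2 h8)
        rw [χ.map_nonunit h4]
        simp
    have h5 : ∑ v ∈ (primesLE K X).filter
        (fun v => v ∉ (D.twist χ).bad ∧ (ℓ : 𝓞 K) ∉ v.asIdeal), f k (y v) =
        ∑ v ∈ (primesLE K X).filter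
        (fun v => v ∉ (D.twist χ).bad ∧ (ℓ : 𝓞 K) ∉ v.asIdeal),
        ((χ (qv v : ZMod q) : ℤ) : ℂ) * f k (x v) := by
      refine Finset.sum_congr rfl fun v hv => ?_
      rw [Finset.mem_filter] at hv
      exact hyv k v ((D.twist_bad χ).1 hv.2.1).2
    rw [h5, ← h2]
    refine Finset.sum_congr ?_ fun _ _ => rfl
    ext v
    simp only [Finset.mem_filter]

end Pool.Agent.Results.MP_4c4ce6_nt.QuadraticTwistsUniform
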