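import Pool.Agent.Helper7.ST.Residue
import Pool.Agent.Helper4.ST.Interval

set_option autoImplicit false

namespace Pool.Agent.Results.MP_4c4ce6_nt.ResidueIntervals

open NumberField IsDedekindDomain Matrix MeasureTheory Pool.Agent.Helper4.ST
open scoped MatrixGroups

universe u w

open Classical in
/-- For every subgroup `H` of `(ℤ/qℤ)ˣ`, of index `m`, every coset `a H` and every `k`: the sum of
`F k v` over the primes `v` with `q_v ≤ X`, `good v` and `q_v mod q ∈ a H`, multiplied by `m`,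
differs from the sum over all `v` with `q_v ≤ X`, `good v` that do not lie above `q` by an amount
which, multiplied by `√(w k)`, is at most `√m M`. -/
def CosetsClose {K : Type u} [Field K] [NumberField K] (good : HeightOneSpectrum (𝓞 K) → Prop)
    (F : ℕ → HeightOneSpectrum (𝓞 K) → ℂ) (w : ℕ → ℝ) (q X : ℕ) (M : ℝ) : Prop :=
  ∀ (H : Subgroup (ZMod q)ˣ) (a : (ZMod q)ˣ) (k : ℕ),
    Real.sqrt (w k) * ‖(H.index : ℂ) * ∑ v ∈ (primesLE K X).filter
        (fun v => good v ∧ ∃ h ∈ H, (qv v : ZMod q) = ((a * h : (ZMod q)ˣ) : ZMod q)), F k v -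
      ∑ v ∈ (primesLE K X).filter (fun v => good v ∧ (q : 𝓞 K) ∉ v.asIdeal), F k v‖ ≤
      Real.sqrt H.index * M

section generic

variable {K : Type u} [Field K] [NumberField K]

open Classical in
/-- The nonprincipal characters modulo `q`, as a set of characters. -/
noncomputable def Tq (q : ℕ) : Finset (Σ q : ℕ, DirichletCharacter ℂ q) :=
  if h : q = 0 then ∅ else
    haveI : NeZero q := ⟨h⟩
    (Pool.Agent.Helper7.ST.nonprin q).map ⟨Sigma.mk q, sigma_mk_injective⟩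

theorem hTqmem (q : ℕ) (hq : q.Prime) (j : Σ q : ℕ, DirichletCharacter ℂ q) (hj : j ∈ Tq q) :
    j.1 = q ∧ j.2.IsPrimitive := by
  unfold Tq at hj
  rw [dif_neg hq.ne_zero, Finset.mem_map] at hj
  obtain ⟨χ, hχ, rfl⟩ := hj
  have hNZ : NeZero q := ⟨hq.ne_zero⟩
  have hne : χ ≠ 1 := Pool.Agent.Helper7.ST.mem_nonprin.1 hχ
  have hp := Pool.Agent.Helper7.ST.primitive_of_prime hq hne
  exact ⟨rfl, hp⟩

theorem hdisj (Q : Finset ℕ) (hQ : ∀ q ∈ Q, q.Prime) : (Q : Set ℕ).PairwiseDisjoint Tq := by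
  intro q hq q' hq' hne
  rw [Function.onFun, Finset.disjoint_left]
  intro j hj hj'
  have e1 := (hTqmem q (hQ q hq) j hj).1
  have e2 := (hTqmem q' (hQ q' hq') j hj').1
  exact hne (e1.symm.trans e2)

open Classical in
theorem hclose (good : HeightOneSpectrum (𝓞 K) → Prop) (F : ℕ → HeightOneSpectrum (𝓞 K) → ℂ)
    (w : ℕ → ℝ) (hw : ∀ k, 0 ≤ w k) (q X : ℕ) (M : ℝ) (hq : q.Prime) (hM : 0 ≤ M)
    (h : ∀ k, w k * ∑ j ∈ Tq q, ‖∑ v ∈ (primesLE K X).filter good,
      j.2 (qv v : ZMod j.1) * F k v‖ ^ 2 ≤ M ^ 2) :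
    CosetsClose good F w q X M := by
  have hq0 : q ≠ 0 := hq.ne_zero
  have hNZ : NeZero q := ⟨hq0⟩
  intro H a k
  rcases (hw k).eq_or_lt with h0 | h0
  · rw [← h0, Real.sqrt_zero, zero_mul]
    positivity
  · have hs : 0 < Real.sqrt (w k) := Real.sqrt_pos.2 h0
    have h1 : ∑ χ ∈ Pool.Agent.Helper7.ST.nonprin q,
        ‖∑ v ∈ (primesLE K X).filter good, χ (qv v : ZMod q) * F k v‖ ^ 2 ≤
        (M / Real.sqrt (w k)) ^ 2 := by
      rw [div_pow, Real.sq_sqrt (hw k), le_div_iff₀ h0, mul_comm]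
      refine le_trans (le_of_eq ?_) (h k)
      unfold Tq
      rw [dif_neg hq0, Finset.sum_map]
      rfl
    have h2 := Pool.Agent.Helper7.ST.coset_bound X good (F k) q (M / Real.sqrt (w k))
      (by positivity) h1 H a
    have h3 := mul_le_mul_of_nonneg_left h2 hs.le
    have h4 : Real.sqrt (w k) * (Real.sqrt H.index * (M / Real.sqrt (w k))) =
        Real.sqrt H.index * M := by
      field_simp
    rw [h4] at h3
    refine le_trans (le_of_eq ?_) h3
    congr!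

/-- A failure for one `k` shows in the weighted sums. -/
theorem hsum (A : ℕ → ℝ) (hA : ∀ k, 0 ≤ A k) (w : ℕ → ℝ) (hw : ∀ k, 0 ≤ w k) (M : ℝ) (k n : ℕ)
    (hk : k < n) (h : M < w k * A k) : M ≤ ∑ k ∈ Finset.range n, w k * A k :=
  h.le.trans (Finset.single_le_sum (f := fun k => w k * A k)
    (fun k _ => mul_nonneg (hw k) (hA k)) (Finset.mem_range.2 hk))

open Classical in
theorem every (good : HeightOneSpectrum (𝓞 K) → Prop) (F : ℕ → HeightOneSpectrum (𝓞 K) → ℂ)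
    (hF : ∀ k v, ‖F k v‖ ≤ 1) (w : ℕ → ℝ) (hw : ∀ k, 0 ≤ w k)
    (hw1 : ∀ n, ∑ k ∈ Finset.range n, w k ≤ 1) (Z Y : ℕ) (ε : ℝ) (hY : 2 ≤ Y) (hε : 0 < ε) :
    ∃ E : Finset ℕ, (E.card : ℝ) ≤ 7500 * (Module.finrank ℚ K : ℝ) ^ 4 / ε ^ 2 ∧
      (Z = 0 → (E.card : ℝ) ≤ 1000 * (Module.finrank ℚ K : ℝ) ^ 2 / ε ^ 2) ∧
      ∀ q : ℕ, q.Prime → q ^ 6 ≤ Y → q ∉ E →
        CosetsClose (fun v => good v ∧ Z < qv v) F w q (Z + Y) (ε * (Y / Real.log Y)) := by
  have hX1 : (1 : ℝ) < Y := by exact_mod_cast (by omega : 1 < Y)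
  have hlog : 0 < Real.log Y := Real.log_pos hX1
  have hZ : 0 < (Y : ℝ) / Real.log Y := by positivity
  set E : Finset ℕ := (Finset.range (Y + 1)).filter (fun q => q.Prime ∧ q ^ 6 ≤ Y ∧
    ¬ CosetsClose (fun v => good v ∧ Z < qv v) F w q (Z + Y) (ε * (Y / Real.log Y))) with hE
  have hEp : ∀ q ∈ E, q.Prime := fun q hq => (Finset.mem_filter.1 hq).2.1
  have hS : ∀ j ∈ E.biUnion Tq, 1 ≤ j.1 ∧ j.1 ^ 6 ≤ Y ∧ j.2.IsPrimitive := by
    intro j hj
    rw [Finset.mem_biUnion] at hj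
    obtain ⟨q, hq, hj⟩ := hj
    obtain ⟨h1, h2⟩ := hTqmem q (hEp q hq) j hj
    have h3 := (Finset.mem_filter.1 hq).2
    exact ⟨by rw [h1]; exact h3.1.one_le, by rw [h1]; exact h3.2.1, h2⟩
  set A : ℕ → ℕ → ℝ := fun q k => ∑ j ∈ Tq q, ‖∑ v ∈ (primesLE K (Z + Y)).filter
    (fun v => good v ∧ Z < qv v), j.2 (qv v : ZMod j.1) * F k v‖ ^ 2 with hA
  have hA0 : ∀ q k, 0 ≤ A q k := fun q k => Finset.sum_nonneg fun _ _ => by positivity
  have hbad : ∀ q : ℕ, ∃ k : ℕ, q ∈ E → (ε * (Y / Real.log Y)) ^ 2 < w k * A q k := by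
    intro q
    by_cases hq : q ∈ E
    · by_contra hno
      push Not at hno
      refine (Finset.mem_filter.1 hq).2.2.2 (hclose _ F w hw q _ _ (hEp q hq) (by positivity) ?_)
      intro k
      refine le_trans (le_of_eq ?_) (hno k).2
      rw [hA]
      congr 1
      refine Finset.sum_congr rfl fun j _ => ?_
      congr!
    · exact ⟨0, fun h => absurd h hq⟩
  choose kk hkk using hbad
  set n : ℕ := E.sup kk + 1 with hn
  have h2 : (E.card : ℝ) * (ε * (Y / Real.log Y)) ^ 2 ≤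
      ∑ k ∈ Finset.range n, w k * ∑ j ∈ E.biUnion Tq,
        ‖∑ v ∈ (primesLE K (Z + Y)).filter (fun v => good v ∧ Z < qv v),
          j.2 (qv v : ZMod j.1) * F k v‖ ^ 2 := by
    have h3 : ∀ k, w k * ∑ j ∈ E.biUnion Tq,
        ‖∑ v ∈ (primesLE K (Z + Y)).filter (fun v => good v ∧ Z < qv v),
          j.2 (qv v : ZMod j.1) * F k v‖ ^ 2 = ∑ q ∈ E, w k * A q k := by
      intro k
      rw [Finset.sum_biUnion (hdisj E hEp), Finset.mul_sum]
    simp only [h3]
    rw [Finset.sum_comm, ← nsmul_eq_mul, ← Finset.sum_const]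
    refine Finset.sum_le_sum fun q hq => ?_
    exact hsum (A q) (hA0 q) w hw _ (kk q) n (by
      have := Finset.le_sup (f := kk) hq
      omega) (hkk q hq)
  have hfin : ∀ C : ℝ, 0 ≤ C → (∀ k, ∑ j ∈ E.biUnion Tq,
      ‖∑ v ∈ (primesLE K (Z + Y)).filter (fun v => good v ∧ Z < qv v),
        j.2 (qv v : ZMod j.1) * F k v‖ ^ 2 ≤ C * (Y / Real.log Y) ^ 2) →
      (E.card : ℝ) ≤ C / ε ^ 2 := by
    intro C hC h1
    have h3 : (E.card : ℝ) * ε ^ 2 * (Y / Real.log Y) ^ 2 ≤ C * (Y / Real.log Y) ^ 2 := by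
      calc (E.card : ℝ) * ε ^ 2 * (Y / Real.log Y) ^ 2 =
          (E.card : ℝ) * (ε * (Y / Real.log Y)) ^ 2 := by ring
        _ ≤ _ := h2
        _ ≤ ∑ k ∈ Finset.range n, w k * (C * (Y / Real.log Y) ^ 2) :=
          Finset.sum_le_sum fun k _ => mul_le_mul_of_nonneg_left (h1 k) (hw k)
        _ = (∑ k ∈ Finset.range n, w k) * (C * (Y / Real.log Y) ^ 2) := by
          rw [Finset.sum_mul]
        _ ≤ 1 * (C * (Y / Real.log Y) ^ 2) :=
          mul_le_mul_of_nonneg_right (hw1 n) (by positivity)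
        _ = _ := one_mul _
    have h4 := le_of_mul_le_mul_right h3 (by positivity)
    rw [le_div_iff₀ (by positivity)]
    exact h4
  refine ⟨E, hfin _ (by positivity)
    (fun k => every_interval (K := K) good (F k) (hF k) Z Y hY (E.biUnion Tq) hS), ?_, ?_⟩
  · rintro rfl
    apply hfin _ (by positivity)
    intro k
    have h1 := every_scale (K := K) (fun v => good v ∧ 0 < qv v) (F k) (hF k) (0 + Y) (by omega)
      (E.biUnion Tq) (by
        intro j hj
        obtain ⟨h1, h2, h3⟩ := hS j hj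
        exact ⟨h1, by omega, h3⟩)
    rw [Nat.zero_add] at h1 ⊢
    refine le_trans (le_of_eq ?_) h1
    refine Finset.sum_congr rfl fun j _ => ?_
    congr!
  · intro q hq hqX hqE
    by_contra h
    apply hqE
    rw [hE, Finset.mem_filter, Finset.mem_range]
    refine ⟨?_, hq, hqX, h⟩
    have : q ≤ q ^ 6 := Nat.le_self_pow (by norm_num) q
    omega

open Classical in
theorem limit (good : HeightOneSpectrum (𝓞 K) → Prop) (F : ℕ → HeightOneSpectrum (𝓞 K) → ℂ)
    (hF : ∀ k v, ‖F k v‖ ≤ 1) (w : ℕ → ℝ) (hw : ∀ k, 0 ≤ w k)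
    (hw1 : ∀ n, ∑ k ∈ Finset.range n, w k ≤ 1) (S : Set ℕ) (ε : ℝ) (hS : S.Infinite)
    (hε : 0 < ε) :
    ∃ E : Finset ℕ, (E.card : ℝ) ≤ (Module.finrank ℚ K / ε) ^ 2 ∧
      ∀ q : ℕ, q.Prime → q ∉ E →
        {X ∈ S | CosetsClose good F w q X (ε * Nat.primeCounting X)}.Infinite := by
  set B : Set ℕ := {q | q.Prime ∧ ¬ {X ∈ S | CosetsClose good F w q X
    (ε * Nat.primeCounting X)}.Infinite} with hB
  have hbound : ∀ Q : Finset ℕ, (∀ q ∈ Q, q ∈ B) →
      (Q.card : ℝ) ≤ (Module.finrank ℚ K / ε) ^ 2 := by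
    intro Q hQ
    have key : ∀ δ : ℝ, 0 < δ → (Q.card : ℝ) * ε ^ 2 ≤ (Module.finrank ℚ K : ℝ) ^ 2 + δ := by
      intro δ hδ
      set T : Finset (Σ q : ℕ, DirichletCharacter ℂ q) := Q.biUnion Tq with hT
      have hTprim : ∀ j ∈ T, j.1 ≠ 0 ∧ j.2.IsPrimitive := by
        intro j hj
        rw [hT, Finset.mem_biUnion] at hj
        obtain ⟨q, hq, hj⟩ := hj
        obtain ⟨h1, h2⟩ := hTqmem q (hQ q hq).1 j hj
        exact ⟨by rw [h1]; exact (hQ q hq).1.ne_zero, h2⟩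
      have h1 := Pool.Agent.Helper7.ST.bessel_K (K := K) T hTprim good (δ / 2) (half_pos hδ)
      have h2 := Pool.Agent.Helper7.ST.mean_square_le (K := K) good (δ / 2) (half_pos hδ)
      set A : ℕ → ℕ → ℕ → ℝ := fun X q k => ∑ j ∈ Tq q, ‖(∑ v ∈ (primesLE K X).filter good,
        j.2 (qv v : ZMod j.1) * F k v) / (Nat.primeCounting X : ℂ)‖ ^ 2 with hA
      have hA0 : ∀ X q k, 0 ≤ A X q k := fun X q k => Finset.sum_nonneg fun _ _ => by positivity
      have h3 : ∀ᶠ X : ℕ in Filter.atTop, ∀ q ∈ Q, X ∈ S →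
          ∃ k, ε ^ 2 < w k * A X q k := by
        rw [Filter.eventually_all_finset]
        intro q hq
        obtain ⟨M, hM⟩ := (Set.not_infinite.1 (hQ q hq).2).bddAbove
        filter_upwards [Filter.eventually_gt_atTop M,
          Pool.Agent.Helper7.ST.tendsto_pi.eventually_gt_atTop 0] with X hX hpi hXS
        by_contra hlt
        push Not at hlt
        have h4 : ∀ k, w k * ∑ j ∈ Tq q, ‖∑ v ∈ (primesLE K X).filter good,
            j.2 (qv v : ZMod j.1) * F k v‖ ^ 2 ≤ (ε * Nat.primeCounting X) ^ 2 := by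
          intro k
          have h5 : A X q k =
              (∑ j ∈ Tq q, ‖∑ v ∈ (primesLE K X).filter good,
                  j.2 (qv v : ZMod j.1) * F k v‖ ^ 2) / (Nat.primeCounting X : ℝ) ^ 2 := by
            rw [hA]
            simp only
            rw [Finset.sum_div]
            refine Finset.sum_congr rfl fun j _ => ?_
            rw [norm_div, Complex.norm_natCast, div_pow]
          have h6 := hlt k
          rw [h5, ← mul_div_assoc, div_le_iff₀ (by positivity)] at h6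
          rw [mul_pow]
          exact h6
        have : X ≤ M := hM ⟨hXS, hclose good F w hw q X _ (hQ q hq).1 (by positivity) h4⟩
        omega
      have h5 := h1.and (h2.and h3)
      obtain ⟨X₀, hX₀⟩ := Filter.eventually_atTop.1 h5
      obtain ⟨X, hXS, hX⟩ := hS.exists_gt X₀
      obtain ⟨g1, g2, g3⟩ := hX₀ X hX.le
      have g45 : ∀ k, ∑ j ∈ T, ‖(∑ v ∈ (primesLE K X).filter good,
              j.2 (qv v : ZMod j.1) * F k v) / (Nat.primeCounting X : ℂ)‖ ^ 2 ≤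
            (Module.finrank ℚ K : ℝ) ^ 2 + δ := by
        intro k
        have g4 := g1 (F k) (hF k)
        have g5 := g2 (F k) (hF k)
        linarith
      have hk : ∀ q : ℕ, ∃ k, q ∈ Q → ε ^ 2 < w k * A X q k := by
        intro q
        by_cases hq : q ∈ Q
        · obtain ⟨k, hk⟩ := g3 q hq hXS
          exact ⟨k, fun _ => hk⟩
        · exact ⟨0, fun h => absurd h hq⟩
      choose kk hkk using hk
      set n : ℕ := Q.sup kk + 1 with hn
      have g6 : (Q.card : ℝ) * ε ^ 2 ≤ ∑ k ∈ Finset.range n, w k * ∑ j ∈ T,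
          ‖(∑ v ∈ (primesLE K X).filter good,
              j.2 (qv v : ZMod j.1) * F k v) / (Nat.primeCounting X : ℂ)‖ ^ 2 := by
        have h7 : ∀ k, w k * ∑ j ∈ T, ‖(∑ v ∈ (primesLE K X).filter good,
              j.2 (qv v : ZMod j.1) * F k v) / (Nat.primeCounting X : ℂ)‖ ^ 2 =
            ∑ q ∈ Q, w k * A X q k := by
          intro k
          rw [hT, Finset.sum_biUnion (hdisj Q fun q hq => (hQ q hq).1), Finset.mul_sum]
        simp only [h7]
        rw [Finset.sum_comm, ← nsmul_eq_mul, ← Finset.sum_const]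
        refine Finset.sum_le_sum fun q hq => ?_
        exact hsum (A X q) (hA0 X q) w hw _ (kk q) n (by
          have := Finset.le_sup (f := kk) hq
          omega) (hkk q hq)
      calc (Q.card : ℝ) * ε ^ 2 ≤ _ := g6
        _ ≤ ∑ k ∈ Finset.range n, w k * ((Module.finrank ℚ K : ℝ) ^ 2 + δ) :=
          Finset.sum_le_sum fun k _ => mul_le_mul_of_nonneg_left (g45 k) (hw k)
        _ = (∑ k ∈ Finset.range n, w k) * ((Module.finrank ℚ K : ℝ) ^ 2 + δ) := by
          rw [Finset.sum_mul]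
        _ ≤ 1 * ((Module.finrank ℚ K : ℝ) ^ 2 + δ) :=
          mul_le_mul_of_nonneg_right (hw1 n) (by positivity)
        _ = _ := one_mul _
    have h6 : (Q.card : ℝ) * ε ^ 2 ≤ (Module.finrank ℚ K : ℝ) ^ 2 :=
      le_of_forall_pos_le_add key
    rw [div_pow, le_div_iff₀ (by positivity)]
    exact h6
  have hfin : B.Finite := by
    by_contra hinf
    have hinf' : B.Infinite := hinf
    obtain ⟨T, hT1, hT2⟩ := hinf'.exists_subset_card_eq
      (⌊((Module.finrank ℚ K : ℝ) / ε) ^ 2⌋₊ + 1)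
    have h7 := hbound T (fun c hc => hT1 hc)
    rw [hT2] at h7
    push_cast at h7
    have h8 := Nat.lt_floor_add_one (((Module.finrank ℚ K : ℝ) / ε) ^ 2)
    linarith
  refine ⟨hfin.toFinset, hbound _ (fun c hc => (Set.Finite.mem_toFinset hfin).1 hc), ?_⟩
  intro q hq hqE
  by_contra h
  exact hqE ((Set.Finite.mem_toFinset hfin).2 ⟨hq, h⟩)

end generic

open Classical in
/-- **Sato-Tate averages in residue classes modulo all primes but a bounded number, in every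
interval, for all test functions at once.**
Let `D` be a strictly compatible symplectic family of odd weight `n` over a number field `K` of
degree `d`, with Sato-Tate group `U` and classes `x v`.  Let `f 0, f 1, ...` be any functions on `U`
with `‖f k‖ ≤ 1` (for example a sequence whose span is dense in the continuous functions, or the
normalised irreducible characters) and `w k ≥ 0` weights of sum at most `1`.
(0) The Frobenius at `v` maps a `q`-th root of unity `ζ` to `ζ ^ q_v`, so that the condition on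
`q_v mod q` in `CosetsClose` is one on the Frobenius in the subextension of `K(ζ_q)` fixed by `H`.
(1) For every `Z ≥ 0`, `Y ≥ 2` and `ε > 0`, all but at most `7500 d⁴ / ε²` (if `Z = 0`, all but at
most `1000 d² / ε²`) of the primes `q ≤ Y^(1/6)` are such that for all `k`, every subgroup `H` of
`(ℤ/qℤ)ˣ`, of index `m`, and every coset `a H`,
`√w_k |m ∑_{Z < q_v ≤ Z + Y, q_v mod q ∈ a H} f_k (x v) - ∑_{Z < q_v ≤ Z + Y} f_k (x v)| ≤
ε √m Y / log Y`.
(2) For every infinite set `S` of positive integers and every `ε > 0`, all but at most `(d / ε)²`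
of all primes `q` are such that, for infinitely many `X ∈ S`, for all `k`, every `H` and every
coset `a H`,
`√w_k |m ∑_{q_v ≤ X, q_v mod q ∈ a H} f_k (x v) - ∑_{q_v ≤ X} f_k (x v)| ≤ ε √m π(X)`. -/
theorem result (K : Type u) [Field K] [NumberField K] (Ω : Type w) [Field Ω] [CharZero Ω]
    [Algebra K Ω] [IsAlgClosed Ω] [Algebra.IsAlgebraic K Ω] (r n : ℕ) (D : Family K Ω r n)
    (ℓ : ℕ) [Fact ℓ.Prime] (τ : ℚ_[ℓ] →+* ℂ) (U : Subgroup (GL (Fin r) ℂ))
    (x : HeightOneSpectrum (𝓞 K) → U) (f : ℕ → U → ℂ) (w : ℕ → ℝ)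
    (_hn : Odd n) (_hU : D.IsSatoTateGroup ℓ τ U)
    (_hx : ∀ v, v ∉ D.bad → (ℓ : 𝓞 K) ∉ v.asIdeal → D.IsSatoTateClass ℓ τ U v (x v))
    (hf : ∀ k u, ‖f k u‖ ≤ 1) (hw : ∀ k, 0 ≤ w k) (hw1 : ∀ n, ∑ k ∈ Finset.range n, w k ≤ 1) :
    (∀ (q : ℕ) (v : HeightOneSpectrum (𝓞 K)) (σ : Ω ≃ₐ[K] Ω) (ζ : Ω), q.Prime →
      (q : 𝓞 K) ∉ v.asIdeal → IsFrob v σ → ζ ^ q = 1 → σ ζ = ζ ^ qv v) ∧
    (∀ (Z Y : ℕ) (ε : ℝ), 2 ≤ Y → 0 < ε →
      ∃ E : Finset ℕ, (E.card : ℝ) ≤ 7500 * (Module.finrank ℚ K : ℝ) ^ 4 / ε ^ 2 ∧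
        (Z = 0 → (E.card : ℝ) ≤ 1000 * (Module.finrank ℚ K : ℝ) ^ 2 / ε ^ 2) ∧
        ∀ q : ℕ, q.Prime → q ^ 6 ≤ Y → q ∉ E →
          CosetsClose (fun v => (v ∉ D.bad ∧ (ℓ : 𝓞 K) ∉ v.asIdeal) ∧ Z < qv v)
            (fun k v => f k (x v)) w q (Z + Y) (ε * (Y / Real.log Y))) ∧
    (∀ (S : Set ℕ) (ε : ℝ), S.Infinite → 0 < ε →
      ∃ E : Finset ℕ, (E.card : ℝ) ≤ (Module.finrank ℚ K / ε) ^ 2 ∧
        ∀ q : ℕ, q.Prime → q ∉ E →
          {X ∈ S | CosetsClose (fun v => v ∉ D.bad ∧ (ℓ : 𝓞 K) ∉ v.asIdeal)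
            (fun k v => f k (x v)) w q X (ε * Nat.primeCounting X)}.Infinite) := by
  refine ⟨fun q v σ ζ hq hv hσ hζ => hσ.root hq.ne_zero hv hζ, ?_, ?_⟩
  · intro Z Y ε hY hε
    exact every _ _ (fun k v => hf k _) w hw hw1 Z Y ε hY hε
  · intro S ε hS hε
    exact limit _ _ (fun k v => hf k _) w hw hw1 S ε hS hε

end Pool.Agent.Results.MP_4c4ce6_nt.ResidueIntervals
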