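import Pool.Agent.Helper4.ST.JacobiChar
import Pool.Agent.Helper4.ST.NormalLaw

set_option autoImplicit false

namespace Pool.Agent.Results.MP_4c4ce6_nt.TwistsNormalLaw

open NumberField IsDedekindDomain Matrix MeasureTheory Pool.Agent.Helper4.ST
open scoped MatrixGroups NumberTheorySymbols

universe u w

open Classical in
/-- **The normal law for the Sato-Tate error term over quadratic twists.**
Let `D` be a strictly compatible symplectic family of odd weight `n` over a number field `K` of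
degree at most `m`, with Sato-Tate group `U`, classes `x v` and Haar probability measure `μ`, and
let `f` be a real function on `U` with `|f| ≤ 1` and `f (-u) = - f u`.  For odd squarefree `d` let
`χ_d` be the Jacobi symbol `(· / d)` (the primitive real character of conductor `d`).  The twist
`D ⊗ χ_d` has the Sato-Tate group `U` and the classes `y d v = (q_v / d) x v`.  Let `S d` be the sum
of `f (y d v) - ∫ f dμ` over the good `v` of degree one with `q_v ≤ X`, and let
`V = ∑_{p ≤ X} (p / (p + 1)) (∑_{q_v = p} f (x v)) ^ 2` (with weight `1` for `p = 2`).  For all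
`N` and `ε > 0` there is `C`, depending only on `m, N, ε`, such that if `V ≥ C` and `Q ≥ X ^ C`,
then for all real `t` the proportion of the `d` with `S d ≤ t √V` among the odd squarefree `d ≤ Q`
differs by at most `ε` from `(2π) ^ (-1/2) ∫_{z ≤ t} exp (- z ^ 2 / 2) dz`, and for all `k ≤ N` the
mean of `(S d / √V) ^ k` over these `d` differs by at most `ε` from the `k`-th moment of the
standard normal law, `(k - 1)!!` for even `k` and `0` for odd `k`. -/
theorem result (m N : ℕ) (ε : ℝ) (hε : 0 < ε) :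
    ∃ C : ℝ, ∀ (K : Type u) [Field K] [NumberField K] (Ω : Type w) [Field Ω] [CharZero Ω]
      [Algebra K Ω] [IsAlgClosed Ω] [Algebra.IsAlgebraic K Ω] (r n : ℕ) (D : Family K Ω r n)
      (ℓ : ℕ) [Fact ℓ.Prime] (τ : ℚ_[ℓ] →+* ℂ) (U : Subgroup (GL (Fin r) ℂ))
      [MeasurableSpace U] [BorelSpace U] (μ : Measure U) [μ.IsHaarMeasure]
      [IsProbabilityMeasure μ] (x : HeightOneSpectrum (𝓞 K) → U) (f : U → ℝ),
      Module.finrank ℚ K ≤ m → Odd n → D.IsSatoTateGroup ℓ τ U →
      (∀ v, v ∉ D.bad → (ℓ : 𝓞 K) ∉ v.asIdeal → D.IsSatoTateClass ℓ τ U v (x v)) →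
      (∀ u, |f u| ≤ 1) →
      (∀ u u' : U, (u' : GL (Fin r) ℂ) = -(u : GL (Fin r) ℂ) → f u' = -f u) →
      ∃ y : ℕ → HeightOneSpectrum (𝓞 K) → U,
        (∀ (d : ℕ) [NeZero d], (D.twist (jacobiChar d)).IsSatoTateGroup ℓ τ U ∧
          ∀ v, v ∉ (D.twist (jacobiChar d)).bad → (ℓ : 𝓞 K) ∉ v.asIdeal →
            (D.twist (jacobiChar d)).IsSatoTateClass ℓ τ U v (y d v) ∧
            ((y d v : GL (Fin r) ℂ) : Matrix (Fin r) (Fin r) ℂ) =
              ((J(qv v | d) : ℤ) : ℂ) • ((x v : GL (Fin r) ℂ) : Matrix (Fin r) (Fin r) ℂ)) ∧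
        ∀ (X Q : ℕ) (V : ℝ) (S : ℕ → ℝ),
          V = ∑ p ∈ (Finset.range (X + 1)).filter Nat.Prime,
            (if p = 2 then (1 : ℝ) else (p : ℝ) / (p + 1)) *
              (∑ v ∈ (primesLE K X).filter
                (fun v => qv v = p ∧ v ∉ D.bad ∧ (ℓ : 𝓞 K) ∉ v.asIdeal), f (x v)) ^ 2 →
          (∀ d, S d = ∑ v ∈ (primesLE K X).filter (fun v => (qv v).Prime ∧ v ∉ D.bad ∧
            (ℓ : 𝓞 K) ∉ v.asIdeal ∧ (d : 𝓞 K) ∉ v.asIdeal), (f (y d v) - ∫ u, f u ∂μ)) →
          C ≤ V → (X : ℝ) ^ C ≤ Q →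
          (∀ t : ℝ, |(((Finset.Icc 1 Q).filter
                (fun d => Odd d ∧ Squarefree d ∧ S d ≤ t * Real.sqrt V)).card : ℝ) /
              (((Finset.Icc 1 Q).filter (fun d => Odd d ∧ Squarefree d)).card : ℝ) -
            (ProbabilityTheory.gaussianReal 0 1).real (Set.Iic t)| ≤ ε) ∧
          (∀ k ≤ N, |(∑ d ∈ (Finset.Icc 1 Q).filter (fun d => Odd d ∧ Squarefree d),
              (S d / Real.sqrt V) ^ k) /
              (((Finset.Icc 1 Q).filter (fun d => Odd d ∧ Squarefree d)).card : ℝ) -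
            (if Even k then ((k - 1).doubleFactorial : ℝ) else 0)| ≤ ε) := by
  obtain ⟨N₀, ε₀, hε₀, hN₀⟩ := NormalLaw.method_uniform ε hε
  have hmm := fun k : ℕ => moments_main m k (min ε ε₀) (lt_min hε hε₀)
  choose Cf hCf1 hCf using hmm
  set C : ℝ := ∑ k ∈ Finset.range (max N N₀ + 1), Cf k with hCdef
  have hCk : ∀ k ≤ max N N₀, Cf k ≤ C := by
    intro k hk
    exact Finset.single_le_sum (f := Cf) (fun k _ => zero_le_one.trans (hCf1 k))
      (Finset.mem_range.2 (by omega))
  have hC1 : 1 ≤ C := (hCf1 0).trans (hCk 0 (Nat.zero_le _))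
  refine ⟨C, ?_⟩
  intro K _ _ Ω _ _ _ _ _ r n D ℓ _ τ U _ _ μ _ _ x f hd hn hU hx hf hodd
  have hℓ0 : NeZero ℓ := ⟨(Fact.out : ℓ.Prime).ne_zero⟩
  have hfrob : ∀ (d : ℕ) [NeZero d], D.HasFrob ℓ (jacobiChar d) := by
    intro d _
    obtain ⟨v, hv⟩ := exists_prime_notMem
      ((D.twist (jacobiChar d)).bad ∪ (Family.finite_dvd (K := K) ℓ).toFinset)
    rw [Finset.mem_union, not_or, Set.Finite.mem_toFinset] at hv
    have h1 := hx v ((D.twist_bad (jacobiChar d)).1 hv.1).1 hv.2
    obtain ⟨_, σ, hσ, _⟩ := h1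
    exact ⟨v, hv.1, hv.2, σ, hσ⟩
  have hneg : (-1 : GL (Fin r) ℂ) ∈ U := by
    obtain ⟨v, hv⟩ := exists_prime_notMem
      (D.bad ∪ (Family.finite_dvd (K := K) ℓ).toFinset)
    rw [Finset.mem_union, not_or, Set.Finite.mem_toFinset] at hv
    have h1 := hx v hv.1 hv.2
    obtain ⟨_, σ, hσ, _⟩ := h1
    exact D.neg_one_mem ℓ τ (D.neg_one_mem_zcl ℓ τ hn hv.1 hv.2 hσ) hU
  have hsU : ∀ (d : ℕ) v, (if J(qv v | d) = -1 then -((x v : U) : GL (Fin r) ℂ) else (x v : U)) ∈ U := by
    intro d v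
    split_ifs
    · have := U.mul_mem hneg (x v).2
      rwa [neg_one_mul] at this
    · exact (x v).2
  set y : ℕ → HeightOneSpectrum (𝓞 K) → U := fun d v => ⟨_, hsU d v⟩ with hy
  have hysign : ∀ (d : ℕ) [NeZero d] v, ((y d v : U) : GL (Fin r) ℂ) =
      Family.signMul (jacobiChar d) (qv v) (x v) := by
    intro d _ v
    simp only [hy, Family.signMul, jacobiChar_apply]
  have hyv : ∀ (d : ℕ) [NeZero d] v, (d : 𝓞 K) ∉ v.asIdeal →
      f (y d v) = ((J(qv v | d) : ℤ) : ℝ) * f (x v) := by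
    intro d _ v hv
    have h0 := char_unit (jacobiChar d) (qv_coprime v hv)
    rw [jacobiChar_apply] at h0
    rcases h0 with h1 | h1
    · have h2 : y d v = x v := by
        apply Subtype.ext
        simp only [hy]
        rw [if_neg (by rw [h1]; decide)]
      rw [h2, h1]
      simp
    · have h2 : ((y d v : U) : GL (Fin r) ℂ) = -((x v : U) : GL (Fin r) ℂ) := by
        simp only [hy]
        rw [if_pos h1]
      rw [hodd _ _ h2, h1]
      simp
  refine ⟨y, ?_, ?_⟩
  · intro d _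
    refine ⟨Family.twist_group D ℓ τ (jacobiChar d) hn (hfrob d) hU, ?_⟩
    intro v hv hℓv
    have hv' := (D.twist_bad (jacobiChar d)).1 hv
    refine ⟨?_, ?_⟩
    · rw [hysign]
      exact D.twist_class ℓ τ (jacobiChar d) hneg hn (hfrob d) hv'.2 (hx v hv'.1 hℓv)
    · have h0 := char_unit (jacobiChar d) (qv_coprime v hv'.2)
      rw [jacobiChar_apply] at h0
      rcases h0 with h1 | h1
      · have h2 : ((y d v : U) : GL (Fin r) ℂ) = ((x v : U) : GL (Fin r) ℂ) := by
          simp only [hy]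
          rw [if_neg (by rw [h1]; decide)]
        rw [h2, h1]
        simp
      · have h2 : ((y d v : U) : GL (Fin r) ℂ) = -((x v : U) : GL (Fin r) ℂ) := by
          simp only [hy]
          rw [if_pos h1]
        rw [h2, h1, Units.val_neg]
        simp
  · intro X Q V S hVdef hSdef hV hQ
    have hint : ∫ u, f u ∂μ = 0 := by
      have h1 : ∫ u, ((f u : ℝ) : ℂ) ∂μ = 0 := Family.integral_odd hneg μ (fun u => ((f u : ℝ) : ℂ))
        (fun u u' h => by
          rw [hodd u u' h]
          push_cast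
          rfl)
      rw [integral_complex_ofReal] at h1
      exact_mod_cast h1
    obtain ⟨good, hgood⟩ : ∃ good : HeightOneSpectrum (𝓞 K) → Prop,
      ∀ v, good v ↔ (v ∉ D.bad ∧ (ℓ : 𝓞 K) ∉ v.asIdeal) := ⟨_, fun _ => Iff.rfl⟩
    set a : ℕ → ℝ := rcoef X good (fun v => f (x v)) with ha
    have ham : ∀ p, |a p| ≤ m := by
      intro p
      refine (abs_rcoef_le X good (fun v => f (x v)) (fun v => hf _) p).trans ?_
      exact_mod_cast hd
    have hVa : V = ∑ p ∈ (Finset.range (X + 1)).filter Nat.Prime, wp p * a p ^ 2 := by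
      rw [hVdef]
      refine Finset.sum_congr rfl fun p hp => ?_
      have hpp : p.Prime := (Finset.mem_filter.1 hp).2
      rw [ha]
      unfold rcoef wp
      rw [if_pos hpp]
      congr 2
      refine Finset.sum_congr ?_ fun _ _ => rfl
      ext v
      simp only [Finset.mem_filter, hgood]
    have hsum : ∀ d : ℕ, Odd d → ∑ v ∈ (primesLE K X).filter (fun v => (qv v).Prime ∧ v ∉ D.bad ∧
        (ℓ : 𝓞 K) ∉ v.asIdeal ∧ (d : 𝓞 K) ∉ v.asIdeal), (f (y d v) - ∫ u, f u ∂μ) =
        ∑ p ∈ (Finset.range (X + 1)).filter Nat.Prime, a p * (G p d : ℝ) := by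
      intro d hdo
      have hd0 : NeZero d := ⟨by rintro rfl; simp at hdo⟩
      have h1 : ∑ v ∈ (primesLE K X).filter (fun v => (qv v).Prime ∧ v ∉ D.bad ∧
          (ℓ : 𝓞 K) ∉ v.asIdeal ∧ (d : 𝓞 K) ∉ v.asIdeal), (f (y d v) - ∫ u, f u ∂μ) =
          ∑ v ∈ (primesLE K X).filter (fun v => (qv v).Prime ∧ v ∉ D.bad ∧
          (ℓ : 𝓞 K) ∉ v.asIdeal ∧ (d : 𝓞 K) ∉ v.asIdeal), (G (qv v) d : ℝ) * f (x v) := by
        refine Finset.sum_congr rfl fun v hv => ?_
        rw [Finset.mem_filter] at hv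
        rw [hint, sub_zero, hyv d v hv.2.2.2.2]
        unfold G
        rw [if_pos hdo]
      rw [h1, ha]
      refine Eq.trans ?_ (rsum_eq X good (fun v => f (x v)) (fun p => (G p d : ℝ)))
      apply Finset.sum_subset
      · intro v hv
        have hv1 := Finset.mem_filter.1 hv
        exact Finset.mem_filter.2 ⟨hv1.1, hv1.2.1, (hgood v).2 ⟨hv1.2.2.1, hv1.2.2.2.1⟩⟩
      · intro v hv hv'
        have hv1 := Finset.mem_filter.1 hv
        have h3 : (d : 𝓞 K) ∈ v.asIdeal := by
          by_contra hno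
          have hv2 := (hgood v).1 hv1.2.2
          exact hv' (Finset.mem_filter.2 ⟨hv1.1, hv1.2.1, hv2.1, hv2.2, hno⟩)
        have h4 : G (qv v) d = 0 := by
          unfold G
          rw [if_pos hdo, jacobi_zero h3]
        rw [h4]
        simp
    have hX0 : X ≠ 0 := by
      rintro rfl
      have h1 : (Finset.range (0 + 1)).filter Nat.Prime = ∅ := by decide
      rw [h1, Finset.sum_empty] at hVa
      linarith
    have hX1 : (1 : ℝ) ≤ X := by exact_mod_cast Nat.one_le_iff_ne_zero.2 hX0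
    have hQ1 : 1 ≤ Q := by
      have h1 : (1 : ℝ) ≤ (X : ℝ) ^ C := Real.one_le_rpow hX1 (by linarith)
      exact_mod_cast h1.trans hQ
    have hV0 : 0 < Real.sqrt V := Real.sqrt_pos.2 (by linarith)
    have hmom : ∀ k ≤ max N N₀, |(∑ d ∈ oddSF Q, (S d / Real.sqrt V) ^ k) /
        ((oddSF Q).card : ℝ) - NormalLaw.gm k| ≤ min ε ε₀ := by
      intro k hk
      have hmain := hCf k a X Q ham (by rw [← hVa]; exact (hCk k hk).trans hV)
        ((Real.rpow_le_rpow_of_exponent_le hX1 (hCk k hk)).trans hQ)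
      rw [← hVa] at hmain
      refine le_trans (le_of_eq ?_) hmain
      congr 2
      unfold Eav
      congr 1
      refine Finset.sum_congr rfl fun d hdm => ?_
      have hdm' := hdm
      unfold oddSF at hdm'
      rw [Finset.mem_filter] at hdm'
      rw [hSdef d, hsum d hdm'.2.1]
    have hne : (oddSF Q).Nonempty := by
      refine ⟨1, ?_⟩
      unfold oddSF
      rw [Finset.mem_filter, Finset.mem_Icc]
      exact ⟨⟨le_rfl, hQ1⟩, odd_one, squarefree_one⟩
    refine ⟨fun t => ?_, fun k hk => ?_⟩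
    · have h1 := hN₀ (oddSF Q) (fun d => S d / Real.sqrt V) hne
        (fun k hk => (hmom k (hk.trans (le_max_right _ _))).trans (min_le_right _ _)) t
      have e : (Finset.Icc 1 Q).filter
          (fun d => Odd d ∧ Squarefree d ∧ S d ≤ t * Real.sqrt V) =
          (oddSF Q).filter (fun d => S d / Real.sqrt V ≤ t) := by
        ext d
        unfold oddSF
        simp only [Finset.mem_filter, div_le_iff₀ hV0, and_assoc]
      rw [e]
      refine le_trans (le_of_eq ?_) h1
      congr!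
    · exact (hmom k (hk.trans (le_max_left _ _))).trans (min_le_left _ _)

end Pool.Agent.Results.MP_4c4ce6_nt.TwistsNormalLaw
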